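import Pool.Agent.helper23.CO.SpecC

/-!
# Row co:FSB (MP_7c3fb3_pr): the second moment of the density after exponential time
-/

set_option autoImplicit false

open Finset Filter Topology

namespace CO

open CU

theorem FSB_PrE_nonneg {d n : ℕ} [NeZero n] (β : ℝ) (A : Set (Conf d n)) : 0 ≤ PrE β A := by
  unfold PrE Ex
  have hW : ∀ σ : Conf d n, 0 < W β σ := fun σ => Real.exp_pos _
  refine div_nonneg (Finset.sum_nonneg fun σ _ => mul_nonneg (hW σ).le ?_) (Finset.sum_nonneg fun σ _ => (hW σ).le)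
  exact Set.indicator_nonneg (fun _ _ => zero_le_one) σ

theorem FSB_card (d n : ℕ) : (Fintype.card (Site d (n + 3)) : ℝ) = ((n : ℝ) + 3) ^ d := by
  have h : Fintype.card (Site d (n + 3)) = (n + 3) ^ d := by
    show Fintype.card (Fin d → ZMod (n + 3)) = _
    rw [Fintype.card_fun, Fintype.card_fin, ZMod.card]
  rw [h]
  push_cast
  ring

theorem FSB_le_pow {d : ℕ} (hd : 2 ≤ d) (n : ℕ) : (n : ℝ) + 3 ≤ ((n : ℝ) + 3) ^ (d - 1) := by
  have h1 : (1 : ℝ) ≤ (n : ℝ) + 3 := by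
    have : (0 : ℝ) ≤ (n : ℝ) := Nat.cast_nonneg n
    linarith
  calc (n : ℝ) + 3 = ((n : ℝ) + 3) ^ 1 := (pow_one _).symm
    _ ≤ ((n : ℝ) + 3) ^ (d - 1) := pow_le_pow_right₀ h1 (by omega)

theorem FSB_tend : Tendsto (fun n : ℕ => (n : ℝ) + 3) atTop atTop :=
  tendsto_atTop_add_const_right _ _ tendsto_natCast_atTop_atTop

theorem FSB_asym (d : ℕ) (b M : ℝ) (hd : 2 ≤ d) (hb : 0 < b) : ∀ᶠ n : ℕ in atTop,
    M * (((n : ℝ) + 3) ^ d) ^ 3 ≤ Real.exp (b * ((n : ℝ) + 3) ^ (d - 1)) := by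
  have h1 : Tendsto (fun n : ℕ => b * ((n : ℝ) + 3)) atTop atTop := FSB_tend.const_mul_atTop hb
  have h2 := (Real.tendsto_pow_mul_exp_neg_atTop_nhds_zero (d * 3)).comp h1
  have hpos : 0 < b ^ (d * 3) / (|M| + 1) := by positivity
  filter_upwards [h2.eventually (gt_mem_nhds hpos)] with n hn
  have h3 : (b * ((n : ℝ) + 3)) ^ (d * 3) * Real.exp (-(b * ((n : ℝ) + 3))) < b ^ (d * 3) / (|M| + 1) := hn
  have hx : (0 : ℝ) < (n : ℝ) + 3 := by positivity
  have h4 : (((n : ℝ) + 3) ^ d) ^ 3 * (|M| + 1) ≤ Real.exp (b * ((n : ℝ) + 3)) := by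
    rw [mul_pow, Real.exp_neg, ← div_eq_mul_inv, div_lt_div_iff₀ (Real.exp_pos _) (by positivity)] at h3
    have hb' : 0 < b ^ (d * 3) := by positivity
    have h5 : b ^ (d * 3) * ((((n : ℝ) + 3) ^ d) ^ 3 * (|M| + 1)) < b ^ (d * 3) * Real.exp (b * ((n : ℝ) + 3)) := by
      rw [← pow_mul, ← mul_assoc]
      exact h3
    exact (lt_of_mul_lt_mul_left h5 hb'.le).le
  calc M * (((n : ℝ) + 3) ^ d) ^ 3 ≤ (|M| + 1) * (((n : ℝ) + 3) ^ d) ^ 3 := by
        refine mul_le_mul_of_nonneg_right ?_ (by positivity)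
        linarith [le_abs_self M]
    _ = (((n : ℝ) + 3) ^ d) ^ 3 * (|M| + 1) := mul_comm _ _
    _ ≤ Real.exp (b * ((n : ℝ) + 3)) := h4
    _ ≤ Real.exp (b * ((n : ℝ) + 3) ^ (d - 1)) := by
        refine Real.exp_le_exp.2 (mul_le_mul_of_nonneg_left (FSB_le_pow hd n) hb.le)

/-- upper bound for the Poincare constant -/
theorem FSB_cW (d n K : ℕ) (β ε : ℝ) (hd : 2 ≤ d) (hβ : 0 ≤ β) (hK : 1 ≤ K) (hKn : K * K ≤ n + 3)
    (hKε : 8 * β * ((d : ℝ) + 2) / K ≤ ε / 8) :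
    cW d (n + 3) β K ≤ 2 * (Fintype.card (Site d (n + 3)) : ℝ) *
      Real.exp (ε / 8 * ((n : ℝ) + 3) ^ (d - 1) + 4 * d * β) := by
  unfold cW
  refine mul_le_mul_of_nonneg_left (Real.exp_le_exp.2 ?_) (by positivity)
  have hK0 : (0 : ℝ) < K := by
    have : 0 < K := hK
    exact_mod_cast this
  have hcast : (((n + 3 : ℕ)) : ℝ) = (n : ℝ) + 3 := by push_cast; ring
  have h1 : (((n + 3) / K + K : ℕ) : ℝ) ≤ 2 * ((n : ℝ) + 3) / K := by
    have h2 : (((n + 3) / K : ℕ) : ℝ) ≤ ((n : ℝ) + 3) / K := by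
      have := @Nat.cast_div_le ℝ _ _ _ (n + 3) K
      rw [hcast] at this
      exact this
    have h3 : (K : ℝ) ≤ ((n : ℝ) + 3) / K := by
      rw [le_div_iff₀ hK0]
      have : ((K * K : ℕ) : ℝ) ≤ ((n + 3 : ℕ) : ℝ) := by exact_mod_cast hKn
      rw [hcast] at this
      push_cast at this
      exact this
    push_cast
    have h4 : 2 * ((n : ℝ) + 3) / K = ((n : ℝ) + 3) / K + ((n : ℝ) + 3) / K := by ring
    rw [h4]
    exact add_le_add h2 h3
  have hy : ((n : ℝ) + 3) * ((n : ℝ) + 3) ^ (d - 2) = ((n : ℝ) + 3) ^ (d - 1) := by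
    rw [← pow_succ']
    congr 1
    omega
  have h5 : 4 * β * (((d : ℝ) + 2) * (((n + 3) / K + K : ℕ) : ℝ) * (((n + 3 : ℕ)) : ℝ) ^ (d - 2)) ≤
      ε / 8 * ((n : ℝ) + 3) ^ (d - 1) := by
    rw [hcast]
    calc 4 * β * (((d : ℝ) + 2) * (((n + 3) / K + K : ℕ) : ℝ) * ((n : ℝ) + 3) ^ (d - 2))
        ≤ 4 * β * (((d : ℝ) + 2) * (2 * ((n : ℝ) + 3) / K) * ((n : ℝ) + 3) ^ (d - 2)) := by
          refine mul_le_mul_of_nonneg_left ?_ (by positivity)
          refine mul_le_mul_of_nonneg_right ?_ (by positivity)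
          exact mul_le_mul_of_nonneg_left h1 (by positivity)
      _ = (8 * β * ((d : ℝ) + 2) / K) * (((n : ℝ) + 3) * ((n : ℝ) + 3) ^ (d - 2)) := by ring
      _ = (8 * β * ((d : ℝ) + 2) / K) * ((n : ℝ) + 3) ^ (d - 1) := by rw [hy]
      _ ≤ ε / 8 * ((n : ℝ) + 3) ^ (d - 1) := mul_le_mul_of_nonneg_right hKε (by positivity)
  linarith

theorem FSB_exp8 (t : ℝ) (ht : 8 ≤ t) : 2 + Real.exp (3 * t / 8) ≤ Real.exp t := by
  have h1 : Real.exp t = Real.exp (3 * t / 8) * Real.exp (5 * t / 8) := by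
    rw [← Real.exp_add]
    congr 1
    ring
  have h2 : (3 : ℝ) ≤ Real.exp (5 * t / 8) := by
    have := Real.add_one_le_exp (5 * t / 8)
    linarith
  have h3 : (1 : ℝ) ≤ Real.exp (3 * t / 8) := Real.one_le_exp (by linarith)
  rw [h1]
  nlinarith

theorem FSB (hFS2 : FS2_stmt) (hRTO : RTO_stmt) (hMLF : MLF_stmt) (hUPB : UPB_stmt) (hWLA : WLA_stmt) (hWLB : WLB_stmt) (hWLC : WLC_stmt) (hSLC : SLC_stmt) : FSB_stmt := by
  classical
  intro d β ε c hd hβ hLC hms hε hc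
  have hd0 : 0 < d := by omega
  obtain ⟨K0, hK0⟩ := exists_nat_ge (64 * β * ((d : ℝ) + 2) / ε)
  obtain ⟨K, hKdef⟩ : ∃ K : ℕ, K = K0 + 1 := ⟨_, rfl⟩
  have hK1 : 1 ≤ K := by omega
  have hKpos : (0 : ℝ) < K := by exact_mod_cast hK1
  have hKε : 8 * β * ((d : ℝ) + 2) / K ≤ ε / 8 := by
    rw [div_le_iff₀ hKpos]
    rw [div_le_iff₀ hε] at hK0
    have h1 : (K0 : ℝ) ≤ K := by
      rw [hKdef]
      push_cast
      linarith
    nlinarith
  obtain ⟨lam, hlam⟩ : ∃ lam : ℝ, lam = c / 24 := ⟨_, rfl⟩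
  obtain ⟨kap, hkap⟩ : ∃ kap : ℝ, kap = c / (16 * K) := ⟨_, rfl⟩
  have hlam0 : 0 < lam := by rw [hlam]; positivity
  have hkap0 : 0 < kap := by rw [hkap]; positivity
  have hMLF' := hMLF d β kap lam hd hLC hms hkap0 hlam0
  obtain ⟨L, hUPB'⟩ := hUPB d β kap lam hβ hkap0 hlam0.le
  have hA2 : ∀ᶠ n : ℕ in atTop, 8 / c ≤ (n : ℝ) + 3 := FSB_tend.eventually (eventually_ge_atTop (8 / c))
  filter_upwards [hMLF', hUPB', FSB_asym d (7 * ε / 8) (4 * (2 * d * β + 2) * Real.exp (4 * d * β)) hd (by positivity),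
    hA2, eventually_ge_atTop (K * K), eventually_ge_atTop (16 * K), eventually_ge_atTop (K * (2 * L + 2))]
    with n h1 h2 h3 h4 h5 h6 h7 s hs
  have hn0 : (0 : ℝ) ≤ n := Nat.cast_nonneg n
  have hn3 : (0 : ℝ) < (n : ℝ) + 3 := by linarith
  obtain ⟨y, hy⟩ : ∃ y : ℝ, y = ((n : ℝ) + 3) ^ (d - 1) := ⟨_, rfl⟩
  have hy0 : 0 < y := by rw [hy]; positivity
  obtain ⟨N, hN⟩ : ∃ N : ℝ, N = (Fintype.card (Site d (n + 3)) : ℝ) := ⟨_, rfl⟩
  have hNd : N = ((n : ℝ) + 3) ^ d := by rw [hN, FSB_card]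
  have hN0 : 0 < N := by rw [hNd]; positivity
  have hNy : N = ((n : ℝ) + 3) * y := by
    rw [hNd, hy, ← pow_succ']
    congr 1
    omega
  have hyn : (n : ℝ) + 3 ≤ y := by rw [hy]; exact FSB_le_pow hd n
  have h16 : 16 * K ≤ n + 3 := by omega
  obtain ⟨r, hr⟩ : ∃ r : ℕ, r = (n + 3) / K := ⟨_, rfl⟩
  have hr16 : 16 ≤ r := by
    rw [hr, Nat.le_div_iff_mul_le (by omega)]
    exact h16
  have hrL : L < r / 2 := by
    have h8 : 2 * L + 2 ≤ r := by
      rw [hr, Nat.le_div_iff_mul_le (by omega), mul_comm]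
      omega
    omega
  -- the constant
  obtain ⟨C, hC⟩ : ∃ C : ℝ, C = cW d (n + 3) β K := ⟨_, rfl⟩
  have hC0 : 0 < C := by
    rw [hC]
    unfold cW
    rw [← hN]
    positivity
  have hCle : C ≤ 2 * N * Real.exp (ε / 8 * y + 4 * d * β) := by
    rw [hC, hN, hy]
    exact FSB_cW d n K β ε hd hβ hK1 (by omega) hKε
  -- walls
  obtain ⟨Wa, hWa⟩ : ∃ Wa : Finset (Site d (n + 3)), Wa = slab hd0 (wal (n + 3) K r 0) := ⟨_, rfl⟩
  obtain ⟨Wb, hWb⟩ : ∃ Wb : Finset (Site d (n + 3)), Wb = slab hd0 (wal (n + 3) K r (r / 2)) := ⟨_, rfl⟩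
  have hPa : Poi β (univ \ Wa) C := by
    rw [hWa, hC, hr]
    exact (hWLC d (n + 3) K hd0 β hd hβ hK1 h16).2 0 (by rw [← hr]; omega)
  have hPb : Poi β (univ \ Wb) C := by
    rw [hWb, hC, hr]
    exact (hWLC d (n + 3) K hd0 β hd hβ hK1 h16).2 ((n + 3) / K / 2) (by rw [← hr]; omega)
  have hFS := hFS2 d (n + 3) (by omega) β C s (univ \ Wa) (univ \ Wb) hβ hC0 hPa hPb
  rw [Finset.sdiff_sdiff_eq_self (Finset.subset_univ Wa), Finset.sdiff_sdiff_eq_self (Finset.subset_univ Wb), ← hN] at hFS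
  -- first term
  have hfirst : Real.exp ((2 * d * β + 2) * N - s / (2 * N * C)) ≤ 1 := by
    rw [Real.exp_le_one_iff, sub_nonpos, le_div_iff₀ (by positivity)]
    have e1 : (2 * d * β + 2) * N * (2 * N * C) ≤
        (2 * d * β + 2) * N * (2 * N * (2 * N * Real.exp (ε / 8 * y + 4 * d * β))) := by
      refine mul_le_mul_of_nonneg_left ?_ (by positivity)
      exact mul_le_mul_of_nonneg_left hCle (by positivity)
    have e2 : (2 * d * β + 2) * N * (2 * N * (2 * N * Real.exp (ε / 8 * y + 4 * d * β))) =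
        (4 * (2 * d * β + 2) * Real.exp (4 * d * β) * N ^ 3) * Real.exp (ε / 8 * y) := by
      rw [Real.exp_add]
      ring
    have e3 : 4 * (2 * d * β + 2) * Real.exp (4 * d * β) * N ^ 3 ≤ Real.exp (7 * ε / 8 * y) := by
      rw [hNd, hy]
      exact h3
    calc (2 * d * β + 2) * N * (2 * N * C) ≤ _ := e1
      _ = (4 * (2 * d * β + 2) * Real.exp (4 * d * β) * N ^ 3) * Real.exp (ε / 8 * y) := e2
      _ ≤ Real.exp (7 * ε / 8 * y) * Real.exp (ε / 8 * y) := mul_le_mul_of_nonneg_right e3 (Real.exp_pos _).le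
      _ = Real.exp (ε * y) := by
          rw [← Real.exp_add]
          congr 1
          ring
      _ ≤ s := by
          rw [hy]
          exact hs
  -- second term
  have hdisj : Disjoint Wa Wb := by
    rw [Finset.disjoint_left]
    intro x hx hx'
    rw [hWa] at hx
    rw [hWb] at hx'
    unfold slab at hx hx'
    unfold wal at hx hx'
    rw [Finset.mem_filter, Finset.mem_filter] at hx hx'
    have e1 := hx.2.2.2
    have e2 := hx'.2.2.2
    omega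
  obtain ⟨h, hh⟩ : ∃ h : ℝ, h = lam / ((n : ℝ) + 3) := ⟨_, rfl⟩
  have hh0 : 0 ≤ h := by rw [hh]; positivity
  have hR := hRTO d (n + 3) β h Wa Wb hβ hh0 hdisj
  rw [← hN] at hR
  have hcardW : (Wa.card : ℝ) = K * y := by
    have e1 : Wa.card = K * (n + 3) ^ (d - 1) := by
      rw [hWa, (hSLC d (n + 3) hd0).1, hr, (hWLA (n + 3) K hK1 h16).1 0 (by rw [← hr]; omega)]
    rw [e1, hy]
    push_cast
    ring
  have hterm : ∀ x ∈ Wa, exA (KT β fun _ => 0) (fun _ => h) Wb (fun σ => sg (σ x)) - mT d (n + 3) β h ≤ 2 * kap := by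
    intro x hx
    have e1 : exA (KT β fun _ => 0) (fun _ => h) Wb (fun σ => sg (σ x)) ≤ ms d β + kap := by
      refine (h2 (fun _ => 0) h hh0 (le_of_eq hh) (fun _ => le_refl 0) ?_).1 Wb x ?_
      · rw [Finset.sum_const_zero]
        positivity
      · intro z hz hnear
        rw [hWa] at hx
        rw [hWb] at hz
        unfold slab at hx hz
        rw [Finset.mem_filter] at hx hz
        have e2 := hnear ⟨0, hd0⟩
        have e3 := (hWLB (n + 3) K L hK1 h16 (x ⟨0, hd0⟩) (z ⟨0, hd0⟩) e2).2 (by rw [← hr]; exact hrL)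
          (by rw [← hr]; exact hx.2)
        rw [← hr] at e3
        exact e3 hz.2
    have e4 : ms d β - kap ≤ mT d (n + 3) β h := by
      rw [hh]
      exact h1
    linarith
  have hsum : (∑ x ∈ Wa, (exA (KT β fun _ => 0) (fun _ => h) Wb (fun σ => sg (σ x)) - mT d (n + 3) β h)) ≤
      c * y / 8 := by
    calc (∑ x ∈ Wa, (exA (KT β fun _ => 0) (fun _ => h) Wb (fun σ => sg (σ x)) - mT d (n + 3) β h))
        ≤ ∑ _x ∈ Wa, 2 * kap := Finset.sum_le_sum hterm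
      _ = (Wa.card : ℝ) * (2 * kap) := by rw [Finset.sum_const, nsmul_eq_mul]
      _ = c * y / 8 := by
          rw [hcardW, hkap]
          field_simp
          ring
  have h6h : 6 * h * N = c * y / 4 := by
    rw [hh, hNy, hlam]
    field_simp
    ring
  have hratio : PrE β {σ : Conf d (n + 3) | ∀ x ∈ Wa ∪ Wb, σ x = true} /
      (PrE β {σ : Conf d (n + 3) | ∀ x ∈ Wa, σ x = true} * PrE β {σ : Conf d (n + 3) | ∀ x ∈ Wb, σ x = true}) ≤
      Real.exp (3 * (c * y) / 8) := by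
    refine div_le_of_le_mul₀ (mul_nonneg (FSB_PrE_nonneg _ _) (FSB_PrE_nonneg _ _)) (Real.exp_pos _).le ?_
    refine hR.trans ?_
    rw [mul_comm]
    refine mul_le_mul_of_nonneg_right (Real.exp_le_exp.2 ?_) (mul_nonneg (FSB_PrE_nonneg _ _) (FSB_PrE_nonneg _ _))
    linarith
  have hcy : 8 ≤ c * y := by
    rw [div_le_iff₀ hc] at h4
    nlinarith
  calc Ex β (fun σ : Conf d (n + 3) => Fs β s σ ^ 2) ≤ _ := hFS
    _ ≤ 2 * 1 + Real.exp (3 * (c * y) / 8) := add_le_add (mul_le_mul_of_nonneg_left hfirst (by norm_num)) hratio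
    _ ≤ Real.exp (c * y) := by
        have := FSB_exp8 (c * y) hcy
        linarith
    _ = Real.exp (c * ((n : ℝ) + 3) ^ (d - 1)) := by rw [hy]

end CO
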