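import Pool.Agent.helper23.CO.SpecB

/-!
# Row co:ITR (MP_7c3fb3_pr): iteration over the scales
-/

set_option autoImplicit false

open Finset Filter Topology

namespace CO

open CU

/-- the two point function is nondecreasing in the coupling -/
theorem ITR_mono (hLPI : LPI_stmt) {d n : ℕ} [NeZero n] (b b' : ℝ) (hb : 0 ≤ b) (hbb : b ≤ b') (x : Site d n) :
    cT b (fun _ => 0) 0 x ≤ cT b' (fun _ => 0) 0 x := by
  unfold cT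
  have h := (hLPI (Site d n) (KT b' fun _ => 0) (KT b fun _ => 0) (fun _ => 0) (fun _ => 0) (by
    intro y z
    unfold KT
    have hs : (0 : ℝ) ≤ ∑ i : Fin d, if z = y + ev i then (1 : ℝ) else 0 := by
      refine Finset.sum_nonneg fun i _ => ?_
      split_ifs
      · exact zero_le_one
      · exact le_refl 0
    rw [abs_of_nonneg (by positivity)]
    have := mul_le_mul_of_nonneg_right hbb hs
    linarith) (by
    intro y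
    simp)).2.1 0 x
  exact (le_abs_self _).trans h

theorem ITR_log (ρ : ℝ) (hρ : 0 < ρ) (hρ1 : ρ ≤ 1) (j : ℕ) :
    Real.log (4 / (ρ / 2 ^ j)) ≤ (Real.log (4 / ρ) + 1) * 2 ^ j := by
  have h1 : 4 / (ρ / 2 ^ j) = 4 / ρ * 2 ^ j := by
    field_simp
  have h2 : (0 : ℝ) < 4 / ρ := by positivity
  rw [h1, Real.log_mul (by positivity) (by positivity), Real.log_pow]
  have h3 : 0 ≤ Real.log (4 / ρ) := by
    refine Real.log_nonneg ?_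
    rw [le_div_iff₀ hρ]
    linarith
  have h4 : Real.log 2 ≤ 1 := by
    have := Real.log_two_lt_d9
    linarith
  have h5 : (j : ℝ) ≤ 2 ^ j := by
    have : j < 2 ^ j := Nat.lt_two_pow_self
    have h6 : (j : ℝ) < ((2 ^ j : ℕ) : ℝ) := by exact_mod_cast this
    push_cast at h6
    exact h6.le
  have h6 : (1 : ℝ) ≤ 2 ^ j := one_le_pow₀ (by norm_num)
  have h7 : (j : ℝ) * Real.log 2 ≤ 2 ^ j := by
    have h8 : (0 : ℝ) ≤ j := Nat.cast_nonneg j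
    calc (j : ℝ) * Real.log 2 ≤ j * 1 := mul_le_mul_of_nonneg_left h4 h8
      _ ≤ 2 ^ j := by linarith
  nlinarith

/-- the arithmetic of one scale -/
theorem ITR_arith (d j R : ℕ) (ρ μ₀ h0 : ℝ) (hd : 2 ≤ d) (hρ : 0 < ρ) (hρ1 : ρ ≤ 1) (hμ0 : 0 < μ₀) (hh0 : 0 < h0)
    (h0b : (Real.log (4 / ρ) + 1) * (1024 * d ^ 2 * h0) ≤ ρ ^ 5 * μ₀ ^ 8)
    (hR : ρ ^ 2 * μ₀ ^ 4 * 16 ^ j / (4 * d * h0) ≤ (R : ℝ) + 1) :
    Real.log (4 / (ρ / 2 ^ j)) / (h0 / 64 ^ (j + 1) * (2 * R + 1) ^ d) ≤ ρ / 2 ^ j := by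
  have hd0 : (0 : ℝ) < d := by
    have : 0 < d := by omega
    exact_mod_cast this
  have hR0 : (0 : ℝ) ≤ R := Nat.cast_nonneg R
  have hD : 0 < h0 / 64 ^ (j + 1) * (2 * (R : ℝ) + 1) ^ d := by positivity
  rw [div_le_iff₀ hD]
  have e1 : ((R : ℝ) + 1) ^ 2 ≤ (2 * (R : ℝ) + 1) ^ d := by
    calc ((R : ℝ) + 1) ^ 2 ≤ (2 * (R : ℝ) + 1) ^ 2 := pow_le_pow_left₀ (by linarith) (by linarith) 2
      _ ≤ (2 * (R : ℝ) + 1) ^ d := pow_le_pow_right₀ (by linarith) hd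
  have e2 : (ρ ^ 2 * μ₀ ^ 4 * 16 ^ j / (4 * d * h0)) ^ 2 ≤ ((R : ℝ) + 1) ^ 2 :=
    pow_le_pow_left₀ (by positivity) hR 2
  have e3 : ρ / 2 ^ j * (h0 / 64 ^ (j + 1) * (ρ ^ 2 * μ₀ ^ 4 * 16 ^ j / (4 * d * h0)) ^ 2) =
      ρ ^ 5 * μ₀ ^ 8 / (1024 * d ^ 2 * h0) * 2 ^ j := by
    have f1 : (16 : ℝ) ^ j = 2 ^ j * 2 ^ j * 2 ^ j * 2 ^ j := by
      rw [← mul_pow, ← mul_pow, ← mul_pow]
      norm_num
    have f2 : (64 : ℝ) ^ (j + 1) = 64 * (2 ^ j * 2 ^ j * 2 ^ j * 2 ^ j * 2 ^ j * 2 ^ j) := by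
      rw [pow_succ, ← mul_pow, ← mul_pow, ← mul_pow, ← mul_pow, ← mul_pow]
      norm_num
      ring
    rw [f1, f2]
    have f3 : (2 : ℝ) ^ j ≠ 0 := by positivity
    field_simp
    ring
  have e4 : Real.log (4 / ρ) + 1 ≤ ρ ^ 5 * μ₀ ^ 8 / (1024 * d ^ 2 * h0) := by
    rw [le_div_iff₀ (by positivity)]
    exact h0b
  calc Real.log (4 / (ρ / 2 ^ j)) ≤ (Real.log (4 / ρ) + 1) * 2 ^ j := ITR_log ρ hρ hρ1 j
    _ ≤ ρ ^ 5 * μ₀ ^ 8 / (1024 * d ^ 2 * h0) * 2 ^ j := mul_le_mul_of_nonneg_right e4 (by positivity)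
    _ = ρ / 2 ^ j * (h0 / 64 ^ (j + 1) * (ρ ^ 2 * μ₀ ^ 4 * 16 ^ j / (4 * d * h0)) ^ 2) := e3.symm
    _ ≤ ρ / 2 ^ j * (h0 / 64 ^ (j + 1) * (2 * (R : ℝ) + 1) ^ d) := by
        refine mul_le_mul_of_nonneg_left ?_ (by positivity)
        exact mul_le_mul_of_nonneg_left (e2.trans e1) (by positivity)

theorem ITR (hSTP : STP_stmt) (hLPI : LPI_stmt) : ITR_stmt := by
  intro d μ κ Δ hd hκ hκμ hμ1 hΔ
  have hdn : 0 < d := by omega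
  have hd0 : (0 : ℝ) < d := by exact_mod_cast hdn
  obtain ⟨μ₀, hμ₀⟩ : ∃ μ₀ : ℝ, μ₀ = μ - κ / 2 := ⟨_, rfl⟩
  have hμ0 : 0 < μ₀ := by linarith
  have hμ01 : μ₀ ≤ 1 := by linarith
  obtain ⟨ρ, hρ⟩ : ∃ ρ : ℝ, ρ = min (Δ / 2) (min (κ * μ₀ / 8) (μ₀ ^ 2 / 2)) := ⟨_, rfl⟩
  have hρ0 : 0 < ρ := by
    rw [hρ]
    exact lt_min (by positivity) (lt_min (by positivity) (by positivity))
  have hρΔ : ρ ≤ Δ / 2 := by rw [hρ]; exact min_le_left _ _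
  have hρκ : ρ ≤ κ * μ₀ / 8 := by rw [hρ]; exact (min_le_right _ _).trans (min_le_left _ _)
  have hρμ : ρ ≤ μ₀ ^ 2 / 2 := by rw [hρ]; exact (min_le_right _ _).trans (min_le_right _ _)
  have hμ0sq : μ₀ ^ 2 ≤ 1 := pow_le_one₀ hμ0.le hμ01
  have hρ1 : ρ ≤ 1 := by linarith
  have hlog0 : 0 ≤ Real.log (4 / ρ) := by
    refine Real.log_nonneg ?_
    rw [le_div_iff₀ hρ0]
    linarith
  obtain ⟨h0, hh0⟩ : ∃ h0 : ℝ, h0 = min (ρ ^ 2 * μ₀ ^ 4 / (8 * d)) (ρ ^ 5 * μ₀ ^ 8 / (1024 * d ^ 2 * (Real.log (4 / ρ) + 1))) := ⟨_, rfl⟩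
  have hh0pos : 0 < h0 := by
    rw [hh0]
    exact lt_min (by positivity) (by positivity)
  have h0a : 8 * d * h0 ≤ ρ ^ 2 * μ₀ ^ 4 := by
    have h1 : h0 ≤ ρ ^ 2 * μ₀ ^ 4 / (8 * d) := by rw [hh0]; exact min_le_left _ _
    rw [le_div_iff₀ (by positivity)] at h1
    linarith
  have h0b : (Real.log (4 / ρ) + 1) * (1024 * d ^ 2 * h0) ≤ ρ ^ 5 * μ₀ ^ 8 := by
    have h1 : h0 ≤ ρ ^ 5 * μ₀ ^ 8 / (1024 * d ^ 2 * (Real.log (4 / ρ) + 1)) := by rw [hh0]; exact min_le_right _ _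
    rw [le_div_iff₀ (by positivity)] at h1
    linarith
  refine ⟨h0, hh0pos, ?_⟩
  intro n _ b hn hb hμm x
  -- the radius of scale j
  have hRex : ∀ j : ℕ, ∃ R : ℕ, 1 ≤ R ∧ j ≤ R ∧ (R : ℝ) ≤ ρ ^ 2 * μ₀ ^ 4 * 16 ^ j / (4 * d * h0) ∧
      ρ ^ 2 * μ₀ ^ 4 * 16 ^ j / (4 * d * h0) ≤ (R : ℝ) + 1 := by
    intro j
    have hq : (2 : ℝ) * 16 ^ j ≤ ρ ^ 2 * μ₀ ^ 4 * 16 ^ j / (4 * d * h0) := by
      rw [le_div_iff₀ (by positivity)]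
      have : (0 : ℝ) < 16 ^ j := by positivity
      nlinarith
    have hq2 : (2 * 16 ^ j : ℕ) ≤ ⌊ρ ^ 2 * μ₀ ^ 4 * 16 ^ j / (4 * d * h0)⌋₊ := by
      refine Nat.le_floor ?_
      push_cast
      exact hq
    have hj : j < 16 ^ j := Nat.lt_pow_self (by norm_num)
    refine ⟨⌊ρ ^ 2 * μ₀ ^ 4 * 16 ^ j / (4 * d * h0)⌋₊, by omega, by omega, Nat.floor_le (by positivity),
      (Nat.lt_floor_add_one _).le⟩
  choose R hR1 hRj hRle hRge using hRex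
  have h2j : ∀ j : ℕ, (0 : ℝ) < 1 / 2 ^ j ∧ (1 : ℝ) / 2 ^ j ≤ 1 := by
    intro j
    refine ⟨by positivity, ?_⟩
    rw [div_le_one (by positivity)]
    exact one_le_pow₀ (by norm_num)
  have hstep : ∀ j : ℕ, μ - 4 * ρ / μ₀ * (1 - 1 / 2 ^ j) ≤ mT d n (b + 2 * ρ * (1 - 1 / 2 ^ j)) (h0 / 64 ^ j) →
      (n ≤ 2 * R j + 1 → (μ - κ) ^ 2 ≤ cT (b + Δ) (fun _ => 0) 0 x) ∧
      (2 * R j + 1 < n → μ - 4 * ρ / μ₀ * (1 - 1 / 2 ^ (j + 1)) ≤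
        mT d n (b + 2 * ρ * (1 - 1 / 2 ^ (j + 1))) (h0 / 64 ^ (j + 1))) := by
    intro j hj
    obtain ⟨h2a, h2b⟩ := h2j j
    have hratio : 4 * ρ / μ₀ ≤ κ / 2 := by
      rw [div_le_iff₀ hμ0]
      linarith
    have hr0 : 0 < 4 * ρ / μ₀ := by positivity
    have hmj : μ₀ ≤ μ - 4 * ρ / μ₀ * (1 - 1 / 2 ^ j) := by
      have : 4 * ρ / μ₀ * (1 - 1 / 2 ^ j) ≤ 4 * ρ / μ₀ := by nlinarith
      linarith
    have hmj1 : μ - 4 * ρ / μ₀ * (1 - 1 / 2 ^ j) ≤ 1 := by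
      have : 0 ≤ 4 * ρ / μ₀ * (1 - 1 / 2 ^ j) := mul_nonneg hr0.le (by linarith)
      linarith
    have hbj : 0 ≤ b + 2 * ρ * (1 - 1 / 2 ^ j) := by
      have : 0 ≤ 2 * ρ * (1 - 1 / 2 ^ j) := mul_nonneg (by positivity) (by linarith)
      linarith
    have haj : ρ / 2 ^ j ≤ ρ := div_le_self hρ0.le (one_le_pow₀ (by norm_num))
    have hbb : b + 2 * ρ * (1 - 1 / 2 ^ j) + ρ / 2 ^ j = b + 2 * ρ * (1 - 1 / 2 ^ (j + 1)) := by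
      rw [pow_succ]
      field_simp
      ring
    have hRh : 4 * d * (R j : ℝ) * (h0 / 64 ^ j) ≤ (ρ / 2 ^ j) ^ 2 * μ₀ ^ 4 := by
      have e1 := hRle j
      rw [le_div_iff₀ (by positivity)] at e1
      have e2 : (ρ / 2 ^ j) ^ 2 * μ₀ ^ 4 = ρ ^ 2 * μ₀ ^ 4 * 16 ^ j / 64 ^ j := by
        have f1 : (16 : ℝ) ^ j = 2 ^ j * 2 ^ j * 2 ^ j * 2 ^ j := by
          rw [← mul_pow, ← mul_pow, ← mul_pow]
          norm_num
        have f2 : (64 : ℝ) ^ j = 2 ^ j * 2 ^ j * 2 ^ j * 2 ^ j * 2 ^ j * 2 ^ j := by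
          rw [← mul_pow, ← mul_pow, ← mul_pow, ← mul_pow, ← mul_pow]
          norm_num
        rw [f1, f2]
        field_simp
      rw [e2]
      have e3 : 4 * d * (R j : ℝ) * (h0 / 64 ^ j) = (R j : ℝ) * (4 * d * h0) / 64 ^ j := by ring
      rw [e3]
      exact div_le_div_of_nonneg_right e1 (by positivity)
    have hS := hSTP d n (R j) hn (by omega) (hR1 j) (b + 2 * ρ * (1 - 1 / 2 ^ j)) (h0 / 64 ^ j) (h0 / 64 ^ (j + 1))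
      (ρ / 2 ^ j) (μ - 4 * ρ / μ₀ * (1 - 1 / 2 ^ j)) μ₀ hbj (by positivity) (by positivity) hμ0 (by positivity)
      (by nlinarith) hmj hmj1 hRh hj
    rw [hbb] at hS
    refine ⟨fun hnR => ?_, fun hnR => ?_⟩
    · have e1 := hS.1 hnR x
      obtain ⟨h3a, h3b⟩ := h2j (j + 1)
      have e2 : cT (b + 2 * ρ * (1 - 1 / 2 ^ (j + 1))) (fun _ => 0) 0 x ≤ cT (b + Δ) (fun _ => 0) 0 x := by
        refine ITR_mono hLPI _ _ ?_ ?_ x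
        · have : 0 ≤ 2 * ρ * (1 - 1 / 2 ^ (j + 1)) := mul_nonneg (by positivity) (by linarith)
          linarith
        · have : 2 * ρ * (1 - 1 / 2 ^ (j + 1)) ≤ 2 * ρ := by nlinarith
          linarith
      refine le_trans ?_ (e1.trans e2)
      have e3 : μ₀ ^ 2 ≤ (μ - 4 * ρ / μ₀ * (1 - 1 / 2 ^ j)) ^ 2 := pow_le_pow_left₀ hμ0.le hmj 2
      have e4 : ρ / 2 ^ j / 2 ≤ κ * μ₀ / 16 := by linarith
      have e5 : κ * μ₀ / 16 ≤ κ * μ / 16 := by nlinarith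
      have e6 : (μ - κ) ^ 2 + κ * μ / 16 ≤ μ₀ ^ 2 := by
        rw [hμ₀]
        nlinarith
      linarith
    · have e1 := hS.2 hnR
      refine le_trans ?_ e1
      have e2 := ITR_arith d j (R j) ρ μ₀ h0 hd hρ0 hρ1 hμ0 hh0pos h0b (hRge j)
      have e3 : ρ / 2 ^ j ≤ ρ / 2 ^ j / μ₀ := by
        rw [le_div_iff₀ hμ0]
        have : 0 < ρ / 2 ^ j := by positivity
        nlinarith
      have e4 : μ - 4 * ρ / μ₀ * (1 - 1 / 2 ^ (j + 1)) = μ - 4 * ρ / μ₀ * (1 - 1 / 2 ^ j) - 2 * (ρ / 2 ^ j / μ₀) := by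
        rw [pow_succ]
        field_simp
        ring
      rw [e4]
      linarith
  have hkey : ∀ j : ℕ, (μ - κ) ^ 2 ≤ cT (b + Δ) (fun _ => 0) 0 x ∨
      μ - 4 * ρ / μ₀ * (1 - 1 / 2 ^ j) ≤ mT d n (b + 2 * ρ * (1 - 1 / 2 ^ j)) (h0 / 64 ^ j) := by
    intro j
    induction j with
    | zero =>
      right
      have e1 : μ - 4 * ρ / μ₀ * (1 - 1 / 2 ^ 0) = μ := by norm_num
      have e2 : b + 2 * ρ * (1 - 1 / 2 ^ 0) = b := by norm_num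
      have e3 : h0 / 64 ^ 0 = h0 := by norm_num
      rw [e1, e2, e3]
      exact hμm
    | succ j ih =>
      rcases ih with ih | ih
      · exact Or.inl ih
      · by_cases hnR : n ≤ 2 * R j + 1
        · exact Or.inl ((hstep j ih).1 hnR)
        · exact Or.inr ((hstep j ih).2 (by omega))
  rcases hkey n with h | h
  · exact h
  · exact (hstep n h).1 (by have := hRj n; omega)

end CO
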